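import Pool.Agent.Helper48.BDu.TWO
import Pool.Agent.Helper32.Bond.Ev

/-!
# BOND: even covers by circuits for `BDu` from the cover theorem for `MG`
-/

set_option autoImplicit false

open scoped Classical

namespace Pool.Agent.Bond

variable {W E : Type} [DecidableEq W]

/-- The cover theorem (helper32) as a proposition. -/
def CoverThm : Prop :=
  ∀ {Φ ι : Type} (D : MG Φ ι) (E : Finset ι) (w : ι → ℕ), (∀ e ∈ E, w e = 1 ∨ w e = 2) →
    D.EvenSet (E.filter (fun e => w e = 1)) → D.Bridgeless E → (∀ e ∈ E, D.s e ≠ D.t e) →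
    D.HasDual E → ∃ (n : ℕ) (C : Fin n → Finset ι), (∀ i, D.IsCirc (C i) ∧ C i ⊆ E) ∧
      ∀ e ∈ E, (Finset.univ.filter (fun i => e ∈ C i)).card = w e

/-- The multigraph of a `BDu`. -/
noncomputable def mgOf (D : BDu W E) : MG W E where
  s e := (D.exists_end e).choose
  t e := (D.exists_end e).choose_spec.choose

theorem mgOf_ne (D : BDu W E) (e : E) : (mgOf D).s e ≠ (mgOf D).t e :=
  (D.exists_end e).choose_spec.choose_spec.1

theorem mgOf_inc (D : BDu W E) (e : E) : D.inc e = {(mgOf D).s e, (mgOf D).t e} :=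
  (D.exists_end e).choose_spec.choose_spec.2

theorem mem_inc (D : BDu W E) (e : E) (v : W) :
    v ∈ D.inc e ↔ (v = (mgOf D).s e ∨ v = (mgOf D).t e) := by
  rw [mgOf_inc D e, Finset.mem_insert, Finset.mem_singleton]

theorem mgOf_Inc (D : BDu W E) (e : E) (v : W) : (mgOf D).Inc e v ↔ v ∈ D.inc e := by
  rw [mem_inc]
  unfold MG.Inc
  exact ⟨fun h => h.imp Eq.symm Eq.symm, fun h => h.imp Eq.symm Eq.symm⟩

theorem mem_vs (D : BDu W E) (B : Finset E) (v : W) : v ∈ (mgOf D).vs B ↔ v ∈ D.VS B := by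
  rw [BDu.mem_VS]
  unfold MG.vs
  simp only [Set.mem_ofPred_eq, mgOf_Inc]

theorem joins_iff (D : BDu W E) {e : E} {u v : W} (h : (mgOf D).Joins e u v) :
    u ∈ D.inc e ∧ v ∈ D.inc e ∧ D.inc e = {u, v} := by
  rcases h with ⟨h1, h2⟩ | ⟨h1, h2⟩
  · refine ⟨?_, ?_, ?_⟩
    · rw [mem_inc]; exact Or.inl h1.symm
    · rw [mem_inc]; exact Or.inr h2.symm
    · rw [mgOf_inc, h1, h2]
  · refine ⟨?_, ?_, ?_⟩
    · rw [mem_inc]; exact Or.inr h2.symm
    · rw [mem_inc]; exact Or.inl h1.symm
    · rw [mgOf_inc, h1, h2, Finset.pair_comm]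

theorem deg_mgOf (D : BDu W E) (Z : Finset E) (v : W) : (mgOf D).deg Z v = D.dg Z v := by
  unfold MG.deg BDu.dg
  have h : (Z.filter fun e => v ∈ D.inc e) =
      (Z.filter fun e => (mgOf D).s e = v) ∪ (Z.filter fun e => (mgOf D).t e = v) := by
    ext e
    rw [Finset.mem_union, Finset.mem_filter, Finset.mem_filter, Finset.mem_filter, mem_inc]
    constructor
    · rintro ⟨h1, h2 | h2⟩
      · exact Or.inl ⟨h1, h2.symm⟩
      · exact Or.inr ⟨h1, h2.symm⟩
    · rintro (⟨h1, h2⟩ | ⟨h1, h2⟩)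
      · exact ⟨h1, Or.inl h2.symm⟩
      · exact ⟨h1, Or.inr h2.symm⟩
  rw [h, Finset.card_union_of_disjoint]
  · congr 1 <;> (apply congrArg; ext e; simp only [Finset.mem_filter])
  · rw [Finset.disjoint_left]
    intro e h1 h2
    rw [Finset.mem_filter] at h1 h2
    exact mgOf_ne D e (h1.2.trans h2.2.symm)

theorem evenSet_mgOf (D : BDu W E) (Z : Finset E) :
    (mgOf D).EvenSet Z ↔ ∀ w, Even (D.dg Z w) := by
  unfold MG.EvenSet
  simp only [deg_mgOf]

theorem dg_insert (D : BDu W E) {F : Finset E} {e : E} (he : e ∉ F) (v : W) :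
    D.dg (insert e F) v = D.dg F v + if v ∈ D.inc e then 1 else 0 := by
  unfold BDu.dg
  rw [Finset.filter_insert]
  split_ifs with h
  · rw [Finset.card_insert_of_notMem]
    exact fun h' => he (Finset.mem_filter.mp h').1
  · rfl

theorem path_dg (D : BDu W E) {P : Finset E} {u v : W} (h : (mgOf D).IsPath P u v) :
    (u = v → P = ∅) ∧ (u ≠ v → D.dg P u = 1 ∧ D.dg P v = 1 ∧
      (∀ x ∈ D.VS P, x ≠ u → x ≠ v → D.dg P x = 2) ∧ ∀ x ∈ D.VS P, D.Lk P ∅ u x) := by
  induction h with
  | nil u => exact ⟨fun _ => rfl, fun h => absurd rfl h⟩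
  | @cons e P u w v hj huw hu huv hp ih =>
    refine ⟨fun h => absurd h huv, fun _ => ?_⟩
    obtain ⟨hue, hwe, hinc⟩ := joins_iff D hj
    rw [mem_vs] at hu
    have heP : e ∉ P := fun h => hu (BDu.mem_VS.mpr ⟨e, h, hue⟩)
    by_cases hwv : w = v
    · subst hwv
      have hP : P = ∅ := ih.1 rfl
      subst hP
      have hd : ∀ x, D.dg (insert e ∅) x = if x ∈ D.inc e then 1 else 0 := by
        intro x
        rw [dg_insert D (Finset.notMem_empty e)]
        simp [BDu.dg]
      refine ⟨by rw [hd, if_pos hue], by rw [hd, if_pos hwe], ?_, ?_⟩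
      · intro x hx h1 h2
        obtain ⟨f, hf, hxf⟩ := BDu.mem_VS.mp hx
        rw [Finset.mem_insert] at hf
        rcases hf with rfl | hf
        · rw [hinc, Finset.mem_insert, Finset.mem_singleton] at hxf
          rcases hxf with h | h
          · exact absurd h h1
          · exact absurd h h2
        · exact absurd hf (Finset.notMem_empty f)
      · intro x hx
        obtain ⟨f, hf, hxf⟩ := BDu.mem_VS.mp hx
        rw [Finset.mem_insert] at hf
        rcases hf with rfl | hf
        · exact BDu.Lk.edge (Finset.mem_insert_self _ _) hue hxf (Finset.notMem_empty _)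
            (Finset.notMem_empty _)
        · exact absurd hf (Finset.notMem_empty f)
    · obtain ⟨h1, h2, h3, h4⟩ := ih.2 hwv
      have hdu : D.dg P u = 0 := BDu.dg_eq_zero.mpr hu
      have hve : v ∉ D.inc e := by
        rw [hinc, Finset.mem_insert, Finset.mem_singleton]
        rintro (h | h)
        · exact huv h.symm
        · exact hwv h.symm
      refine ⟨?_, ?_, ?_, ?_⟩
      · rw [dg_insert D heP, if_pos hue, hdu]
      · rw [dg_insert D heP, if_neg hve, h2]
      · intro x hx hxu hxv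
        rw [dg_insert D heP]
        by_cases hxw : x = w
        · subst hxw
          rw [if_pos hwe, h1]
        · have hxe : x ∉ D.inc e := by
            rw [hinc, Finset.mem_insert, Finset.mem_singleton]
            rintro (h | h)
            · exact hxu h
            · exact hxw h
          rw [if_neg hxe, add_zero]
          refine h3 x ?_ hxw hxv
          obtain ⟨f, hf, hxf⟩ := BDu.mem_VS.mp hx
          rw [Finset.mem_insert] at hf
          rcases hf with rfl | hf
          · exact absurd hxf hxe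
          · exact BDu.mem_VS.mpr ⟨f, hf, hxf⟩
      · intro x hx
        have huw' : D.Lk (insert e P) ∅ u w :=
          BDu.Lk.edge (Finset.mem_insert_self _ _) hue hwe (Finset.notMem_empty _)
            (Finset.notMem_empty _)
        obtain ⟨f, hf, hxf⟩ := BDu.mem_VS.mp hx
        rw [Finset.mem_insert] at hf
        rcases hf with rfl | hf
        · exact BDu.Lk.edge (Finset.mem_insert_self _ _) hue hxf (Finset.notMem_empty _)
            (Finset.notMem_empty _)
        · exact huw'.trans ((h4 x (BDu.mem_VS.mpr ⟨f, hf, hxf⟩)).mono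
            (Finset.subset_insert _ _) (Finset.Subset.refl _))

theorem isCirc_mgOf (D : BDu W E) {C : Finset E} (h : (mgOf D).IsCirc C) : D.IsCirc C := by
  obtain ⟨e, P, u, v, rfl, heP, hj, huv, hp⟩ := h
  obtain ⟨hue, hve, hinc⟩ := joins_iff D hj
  obtain ⟨h1, h2, h3, h4⟩ := (path_dg D hp).2 huv
  have hcon : ∀ x ∈ D.VS (insert e P), D.Lk (insert e P) ∅ u x := by
    intro x hx
    obtain ⟨f, hf, hxf⟩ := BDu.mem_VS.mp hx
    rw [Finset.mem_insert] at hf
    rcases hf with rfl | hf
    · exact BDu.Lk.edge (Finset.mem_insert_self _ _) hue hxf (Finset.notMem_empty _)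
        (Finset.notMem_empty _)
    · exact (h4 x (BDu.mem_VS.mpr ⟨f, hf, hxf⟩)).mono (Finset.subset_insert _ _)
        (Finset.Subset.refl _)
  refine ⟨⟨e, Finset.mem_insert_self _ _⟩, ?_, fun x hx y hy => (hcon x hx).symm.trans (hcon y hy)⟩
  intro x hx
  rw [dg_insert D heP]
  by_cases hxu : x = u
  · subst hxu
    rw [if_pos hue, h1]
  by_cases hxv : x = v
  · subst hxv
    rw [if_pos hve, h2]
  have hxe : x ∉ D.inc e := by
    rw [hinc, Finset.mem_insert, Finset.mem_singleton]
    rintro (h | h)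
    · exact hxu h
    · exact hxv h
  rw [if_neg hxe, add_zero]
  refine h3 x ?_ hxu hxv
  obtain ⟨f, hf, hxf⟩ := BDu.mem_VS.mp hx
  rw [Finset.mem_insert] at hf
  rcases hf with rfl | hf
  · exact absurd hxf hxe
  · exact BDu.mem_VS.mpr ⟨f, hf, hxf⟩

theorem conn_mgOf (D : BDu W E) {B : Finset E} {u v : W} (h : D.Lk B ∅ u v) :
    (mgOf D).Conn B u v := by
  induction h with
  | refl => exact Relation.ReflTransGen.refl
  | tail _ hs ih =>
    refine Relation.ReflTransGen.tail ih ?_
    obtain ⟨⟨hne, e, he, h1, h2⟩, _, _⟩ := hs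
    refine ⟨e, he, ?_⟩
    rw [mem_inc] at h1 h2
    unfold MG.Joins
    rcases h1 with h1 | h1 <;> rcases h2 with h2 | h2
    · exact absurd (h1.trans h2.symm) hne
    · exact Or.inl ⟨h1.symm, h2.symm⟩
    · exact Or.inr ⟨h2.symm, h1.symm⟩
    · exact absurd (h1.trans h2.symm) hne

/-- Two-connected sets have no bridges. -/
theorem bridgeless_of_twoC (D : BDu W E) {B : Finset E} (hB : D.TwoC B) :
    (mgOf D).Bridgeless B := by
  intro e he
  have h1 := hB.no_bridge he (u := (mgOf D).s e) (v := (mgOf D).t e)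
    ((mem_inc D e _).mpr (Or.inl rfl)) ((mem_inc D e _).mpr (Or.inr rfl))
  obtain ⟨P, hP, hbd⟩ := (conn_mgOf D h1).join
  have heP : Disjoint P {e} := by
    rw [Finset.disjoint_singleton_right]
    intro h
    exact (Finset.mem_erase.mp (hP h)).1 rfl
  refine ⟨P ∪ {e}, ?_, ?_, Finset.mem_union_right _ (Finset.mem_singleton_self e)⟩
  · intro x hx
    rw [Finset.mem_union, Finset.mem_singleton] at hx
    rcases hx with hx | hx
    · exact (Finset.mem_erase.mp (hP hx)).2
    · rw [hx]
      exact he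
  · rw [MG.evenSet_iff_bd]
    intro w
    rw [MG.bd_union_disjoint _ heP, hbd, MG.bd_joins ((mgOf D).joins_self e)]
    exact MG.add_self' _

/-- Deleting edges keeps the existence of a dual. -/
theorem hasDual_mono {Φ ι : Type} (D : MG Φ ι) {A B : Finset ι} (hAB : A ⊆ B)
    (hd : D.HasDual B) : D.HasDual A := by
  obtain ⟨Ψ, H, hH⟩ := hd
  refine ⟨Quot (fun a b => ∃ e ∈ B \ A, H.Joins e a b), H.vmap (Quot.mk _), ?_⟩
  intro Z hZ
  rw [hH Z (hZ.trans hAB)]
  have hmk : ∀ e ∈ B \ A, Quot.mk (fun a b => ∃ e ∈ B \ A, H.Joins e a b) (H.s e) =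
      Quot.mk _ (H.t e) := fun e he => Quot.sound ⟨e, he, H.joins_self e⟩
  constructor
  · rintro ⟨g, rfl⟩
    have hinv : ∀ a b, (∃ e ∈ B \ A, H.Joins e a b) → g a = g b := by
      rintro a b ⟨e, he, hj⟩
      have h1 : ¬ H.Crosses e g := by
        intro hc
        rw [Finset.mem_sdiff] at he
        exact he.2 (hZ ((MG.mem_cutSet H B g e).mpr ⟨he.1, hc⟩))
      have h2 : g (H.s e) ↔ g (H.t e) := not_not.mp h1
      rcases hj with ⟨ha, hb⟩ | ⟨ha, hb⟩
      · rw [← ha, ← hb]
        exact propext h2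
      · rw [← ha, ← hb]
        exact propext h2.symm
    refine ⟨Quot.lift g hinv, ?_⟩
    ext e
    rw [MG.mem_cutSet, MG.mem_cutSet]
    constructor
    · rintro ⟨h1, h2⟩
      exact ⟨hZ ((MG.mem_cutSet H B g e).mpr ⟨h1, h2⟩), h2⟩
    · rintro ⟨h1, h2⟩
      exact ⟨hAB h1, h2⟩
  · rintro ⟨g, hg⟩
    refine ⟨fun a => g (Quot.mk _ a), ?_⟩
    rw [hg]
    ext e
    rw [MG.mem_cutSet, MG.mem_cutSet]
    constructor
    · rintro ⟨h1, h2⟩
      exact ⟨hAB h1, h2⟩
    · rintro ⟨h1, h2⟩
      refine ⟨?_, h2⟩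
      by_contra hn
      apply h2
      change g (Quot.mk _ (H.s e)) ↔ g (Quot.mk _ (H.t e))
      rw [hmk e (Finset.mem_sdiff.mpr ⟨h1, hn⟩)]

/-- **Covers by circuits.** -/
theorem cove_of_dual [Fintype E] (hct : CoverThm) (D : BDu W E) (S₀ : Finset E)
    (hd : (mgOf D).HasDual S₀) : D.COVE S₀ := by
  intro p hp hsub htc hev
  have hO : (mgOf D).EvenSet ((BDu.supp p).filter (fun e => p e = 1)) := by
    rw [evenSet_mgOf]
    intro w
    have h1 := hev w
    unfold BDu.pv at h1
    rw [Finset.even_sum_iff_even_card_odd] at h1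
    unfold BDu.dg
    convert h1 using 2
    ext e
    simp only [Finset.mem_filter, Finset.mem_univ, true_and, BDu.mem_supp]
    have h2 := hp e
    constructor
    · rintro ⟨⟨_, h3⟩, h4⟩
      refine ⟨h4, ?_⟩
      rw [h3]
      exact odd_one
    · rintro ⟨h3, h4⟩
      have h5 : p e = 1 := by
        rcases h4 with ⟨k, hk⟩
        omega
      exact ⟨⟨by omega, h5⟩, h3⟩
  obtain ⟨n, C, hC, hcount⟩ := hct (mgOf D) (BDu.supp p) p
    (fun e he => by
      have h1 := BDu.mem_supp.mp he
      have h2 := hp e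
      omega) hO (bridgeless_of_twoC D htc) (fun e _ => mgOf_ne D e) (hasDual_mono _ hsub hd)
  refine ⟨n, C, fun i => isCirc_mgOf D (hC i).1, fun e => ?_⟩
  by_cases he : e ∈ BDu.supp p
  · rw [← hcount e he]
  · have h0 : p e = 0 := by
      by_contra h
      exact he (BDu.mem_supp.mpr h)
    rw [h0]
    symm
    rw [Finset.card_eq_zero, Finset.filter_eq_empty_iff]
    intro i _ hi
    exact he ((hC i).2 hi)

/-- The same for an arbitrary instance. -/
theorem cove_of_dual_inst [inst : DecidableEq E] [Fintype E] (hct : CoverThm) (D : BDu W E)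
    (S₀ : Finset E) (hd : (mgOf D).HasDual S₀) : D.COVE S₀ := by
  have h := cove_of_dual hct D S₀ hd
  have h1 : inst = Classical.decEq E := Subsingleton.elim _ _
  subst h1
  convert h

end Pool.Agent.Bond
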